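import Pool.Agent.Lib.MP_fc1011_gt.MT.Final

/-!
# The quotient of Dunfield and twisting of many strands
-/

namespace Pool.Agent.Lib.MP_fc1011_gt.Old.FreeTwists

open LaurentPolynomial _root_.MP_fc1011_gt _root_.MP_fc1011_gt.MT

/-- **Theorem.**  Let `D` be a link diagram with `m` strands, made of `D.twists` twist regions and of
arbitrary powers of full twists of the first `k` strands, for arbitrary `k`, which are not counted,
closed by crossingless arcs at the top and at the bottom.  Let `V` be its Jones polynomial.  Then
the quotient `log |V(-1)| / log (span V)` is at most `13 (D.twists + m)` if `span V ≥ 2`. -/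
theorem result (m : ℕ) (hm : 0 < m) (D : Diagram m) (V : ℤ[T;T⁻¹]) (hV : D.IsJones V)
    (hs : 2 ≤ span V) : quotient V ≤ 13 * (D.twists + m) :=
  quotient_le m hm D V hV hs

end Pool.Agent.Lib.MP_fc1011_gt.Old.FreeTwists
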